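import Mathlib

open Matrix Topology

namespace Pool.Agent.Results.MP_80afb3_al.SL3Q

open Classical in
/-- the indicator function of the conjugate `g D g⁻¹` -/
noncomputable def ind {G : Type} [Group G] (D : Subgroup G) (g : G) : G → Bool :=
  fun x => decide (g⁻¹ * x * g ∈ D)

/-- `D` is recurrent for every element, in the product topology on indicator functions -/
def Boomerang {G : Type} [Group G] (D : Subgroup G) : Prop :=
  ∀ g : G, ∀ O ∈ 𝓝 (ind D 1), ∃ n : ℕ, 1 ≤ n ∧ ind D (g ^ n) ∈ O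

theorem Boomerang.conj {G : Type} [Group G] {D : Subgroup G} (h : Boomerang D) (g : G) {x : G}
    (hx : x ∈ D) : ∃ n : ℕ, 1 ≤ n ∧ g ^ n * x * (g ^ n)⁻¹ ∈ D := by
  obtain ⟨n, h1, h2⟩ := h g⁻¹ {f | f x = true}
    (IsOpen.mem_nhds (s := (fun f : G → Bool => f x) ⁻¹' {true})
      ((isOpen_discrete _).preimage (continuous_apply x)) (by simpa [ind] using hx))
  exact ⟨n, h1, by simpa [ind] using h2⟩

abbrev V : Type := Fin 3 → ℚ
abbrev Γ : Type := SpecialLinearGroup (Fin 3) ℚ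

def M (g : Γ) : Matrix (Fin 3) (Fin 3) ℚ := g.1
theorem M_mul (a b : Γ) : M (a * b) = M a * M b := rfl
theorem M_one : M 1 = 1 := rfl
theorem M_inj {a b : Γ} (h : M a = M b) : a = b := Subtype.ext h
theorem M_tr {i j : Fin 3} (h : i ≠ j) (q : ℚ) :
    M (SpecialLinearGroup.transvection h q) = 1 + single i j q := rfl
theorem M_dg {i j : Fin 3} (h : i ≠ j) (a : ℚ) (ha : a ≠ 0) : M (SpecialLinearGroup.diag2n h a ha) =
    diagonal (fun k ↦ if k = i then a else if k = j then a⁻¹ else 1) := rfl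

def T (a f : V) (h : f ⬝ᵥ a = 0) : Γ := ⟨1 + vecMulVec a f, by
  rw [vecMulVec_eq Unit, det_one_add_replicateCol_mul_replicateRow, h, add_zero]⟩

theorem M_T (a f : V) (h : f ⬝ᵥ a = 0) : M (T a f h) = 1 + vecMulVec a f := rfl

theorem T_pow (a f : V) (h : f ⬝ᵥ a = 0) (n : ℕ) :
    M (T a f h ^ n) = 1 + (n : ℚ) • vecMulVec a f ∧
    M (T a f h ^ n)⁻¹ = 1 - (n : ℚ) • vecMulVec a f := by
  have e : ∀ n : ℕ, M (T a f h ^ n) =
      1 + (n : ℚ) • vecMulVec a f := fun n => by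
    induction n with
    | zero => simp [M_one]
    | succ n ih =>
      rw [pow_succ, M_mul, ih]
      simp [M_T, M_one, mul_add, add_mul, vecMulVec_mul_vecMulVec, h, add_smul, add_assoc]
  refine ⟨e n, ?_⟩
  have : T a f h ^ n * T (-(n : ℚ) • a) f (by simp [h]) = 1 := M_inj (by
    rw [M_mul, e]
    simp [M_T, M_one, mul_add, add_mul, vecMulVec_mul_vecMulVec, h, smul_vecMulVec])
  rw [inv_eq_of_mul_eq_one_right this]
  simp [M_T, M_one, smul_vecMulVec, sub_eq_add_neg]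

variable {D : Subgroup Γ}

/-- commutator with a power of a transvection -/
theorem comm (hD : Boomerang D) {g : Γ} (hg : g ∈ D) (a f : V) (h : f ⬝ᵥ a = 0)
    (h' : f ⬝ᵥ (M g *ᵥ a) = 0) : ∃ n : ℚ, n ≠ 0 ∧ ∃ x ∈ D,
      M x = 1 + n • (vecMulVec a f - vecMulVec (M g *ᵥ a) (f ᵥ* M g⁻¹)) := by
  obtain ⟨n, h1, h2⟩ := hD.conj (T a f h) hg
  refine ⟨n, by positivity, _, D.mul_mem h2 (D.inv_mem hg), ?_⟩
  have e : M g * M g⁻¹ = 1 := by rw [← M_mul]; simp [M_one]
  rw [M_mul, M_mul, M_mul,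
    (T_pow a f h n).1, (T_pow a f h n).2, mul_assoc, mul_assoc, sub_mul, one_mul, mul_sub, e]
  simp only [Matrix.smul_mul, Matrix.mul_smul, vecMulVec_mul]
  simp only [mul_vecMulVec (M g), add_mul, mul_sub, Matrix.smul_mul, Matrix.mul_smul,
    one_mul, mul_one, vecMulVec_mul_vecMulVec, h', zero_smul, vecMulVec_zero, smul_zero, add_zero,
    smul_sub]
  abel

def S (D : Subgroup Γ) (a f : V) : Prop := ∃ c : ℚ, c ≠ 0 ∧ ∃ x ∈ D, M x = 1 + c • vecMulVec a f

theorem inv_S {x : Γ} {a f : V} {c : ℚ} (h : f ⬝ᵥ a = 0) (hx : M x = 1 + c • vecMulVec a f) :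
    M x⁻¹ = 1 - c • vecMulVec a f := by
  have : x * T (-c • a) f (by simp [h]) = 1 := M_inj (by
    rw [M_mul, hx]
    simp [M_T, M_one, mul_add, add_mul, vecMulVec_mul_vecMulVec, h, smul_vecMulVec])
  rw [inv_eq_of_mul_eq_one_right this]
  simp [M_T, M_one, smul_vecMulVec, sub_eq_add_neg]

theorem ex_sep (a b : V) (ha : a ≠ 0) : (∃ t : ℚ, b = t • a) ∨ ∃ p : V, p ⬝ᵥ a = 0 ∧ p ⬝ᵥ b ≠ 0 := by
  by_contra hc
  push Not at hc
  obtain ⟨i, hi⟩ := Function.ne_iff.1 ha
  refine hc.1 (b i / a i) (funext fun j => ?_)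
  have := hc.2 (Pi.single j (a i) - Pi.single i (a j)) (by simp [mul_comm])
  simp only [sub_dotProduct, single_dotProduct] at this
  have hi' : a i ≠ 0 := hi
  simp only [Pi.smul_apply, smul_eq_mul]
  field_simp; linarith

theorem move1 (hD : Boomerang D) {a b f : V} (h : f ⬝ᵥ a = 0) (hb : f ⬝ᵥ b = 0) (ha : a ≠ 0)
    (b0 : b ≠ 0) (hS : S D a f) : S D b f := by
  obtain ⟨c, c0, x, hx, e⟩ := hS
  rcases ex_sep b a b0 with ⟨t, rfl⟩ | ⟨p, p1, p2⟩
  · exact ⟨c * t, mul_ne_zero c0 fun h => ha (by simp [h]), x, hx, by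
      rw [e, smul_vecMulVec, smul_smul]⟩
  · obtain ⟨n, n0, y, hy, e'⟩ := comm hD hx b p p1 (by
      simp [e, add_mulVec, smul_mulVec, vecMulVec_mulVec, hb, p1])
    refine ⟨n * c * (p ⬝ᵥ a), by positivity, y, hy, ?_⟩
    rw [e', inv_S h e, e]
    simp [add_mulVec, smul_mulVec, vecMulVec_mulVec, hb, vecMul_sub, vecMul_smul,
      vecMul_vecMulVec, vecMulVec_sub, vecMulVec_smul, smul_smul, mul_assoc]

theorem move2 (hD : Boomerang D) {a f p : V} (h : f ⬝ᵥ a = 0) (hp : p ⬝ᵥ a = 0) (hf : f ≠ 0)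
    (p0 : p ≠ 0) (hS : S D a f) : S D a p := by
  obtain ⟨c, c0, x, hx, e⟩ := hS
  rcases ex_sep p f p0 with ⟨t, rfl⟩ | ⟨b, b1, b2⟩
  · exact ⟨c * t, mul_ne_zero c0 fun h => hf (by simp [h]), x, hx, by
      rw [e, vecMulVec_smul, smul_smul]⟩
  · rw [dotProduct_comm] at b1 b2
    obtain ⟨n, n0, y, hy, e'⟩ := comm hD hx b p b1 (by
      simp [e, add_mulVec, smul_mulVec, vecMulVec_mulVec, hp, b1])
    refine ⟨-(n * c * (f ⬝ᵥ b)), neg_ne_zero.2 (by positivity), y, hy, ?_⟩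
    rw [e', inv_S h e, e]
    simp [add_mulVec, smul_mulVec, vecMulVec_mulVec, hp, vecMul_sub, vecMul_smul,
      vecMul_vecMulVec, add_vecMulVec, smul_vecMulVec, smul_smul, mul_assoc]

theorem ex_perp (a b : V) : ∃ p : V, p ≠ 0 ∧ p ⬝ᵥ a = 0 ∧ p ⬝ᵥ b = 0 := by
  obtain ⟨p, p0, hp⟩ := (exists_mulVec_eq_zero_iff (M := of ![a, b, 0])).2
    (det_eq_zero_of_row_eq_zero 2 fun j => rfl)
  exact ⟨p, p0, by rw [dotProduct_comm]; exact congrFun hp 0,
    by rw [dotProduct_comm]; exact congrFun hp 1⟩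

theorem first (hD : Boomerang D) {g : Γ} (hg : g ∈ D) (g1 : g ≠ 1) :
    ∃ a f : V, a ≠ 0 ∧ f ≠ 0 ∧ f ⬝ᵥ a = 0 ∧ S D a f := by
  obtain ⟨v, hv⟩ : ∃ v : V, ∀ t : ℚ, M g *ᵥ v ≠ t • v := by
    by_contra hc
    push Not at hc
    choose t ht using hc
    have a0 := ht ![1, 0, 0]
    have a1 := ht ![0, 1, 0]
    have a2 := ht ![0, 0, 1]
    have a3 := ht ![1, 1, 1]
    have hd : det (M g) = 1 := g.2
    simp only [funext_iff, Fin.forall_fin_succ, mulVec, dotProduct, Fin.sum_univ_three] at a0 a1 a2 a3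
    simp at a0 a1 a2 a3
    rw [det_fin_three] at hd
    have e1 : M g 1 1 = M g 0 0 := by linarith [a0.2.1, a1.1, a2.1, a2.2.1, a3.1, a3.2.1]
    have e2 : M g 2 2 = M g 0 0 := by linarith [a0.2.2, a1.1, a2.1, a1.2.2, a3.1, a3.2.2]
    rw [a0.2.1, a0.2.2, a1.1, a1.2.2, a2.1, a2.2.1, e1, e2] at hd
    have e0 : M g 0 0 = 1 := by
      have : (M g 0 0 - 1) * ((M g 0 0 + 1 / 2) ^ 2 + 3 / 4) = 0 := by linarith
      rcases mul_eq_zero.1 this with h | h
      · linarith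
      · exact absurd h (by positivity)
    refine g1 (M_inj (Matrix.ext fun i j => ?_))
    fin_cases i <;> fin_cases j <;> simp [M_one, e0, e1, e2, a0.2.1, a0.2.2, a1.1, a1.2.2, a2.1, a2.2.1]
  obtain ⟨f, f0, f1, f2⟩ := ex_perp v (M g *ᵥ v)
  obtain ⟨n, n0, x, hx, e⟩ := comm hD hg v f f1 f2
  set ψ := f ᵥ* M g⁻¹ with hψ
  have gg : M g⁻¹ * M g = 1 := by rw [← M_mul]; simp [M_one]
  have xx : M x * M x⁻¹ = 1 := by rw [← M_mul]; simp [M_one]
  have u0 : M g *ᵥ v ≠ 0 := fun h => hv 0 (by simpa using h)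
  rcases ex_sep f ψ f0 with ⟨t, ht⟩ | ⟨w, w1, w2⟩
  · refine ⟨v - t • M g *ᵥ v, f, fun h => ?_, f0, by simp [f1, f2], n, n0, x, hx, by
      rw [e, ht, sub_vecMulVec, smul_vecMulVec, vecMulVec_smul]⟩
    have h' : v = t • M g *ᵥ v := sub_eq_zero.1 h
    have t0 : t ≠ 0 := by
      rintro rfl
      exact u0 (by rw [h']; simp)
    exact hv t⁻¹ (by rw [eq_inv_smul_iff₀ t0]; exact h'.symm)
  · rw [dotProduct_comm] at w1 w2
    have fx : f ᵥ* M x = f := by
      simp [e, vecMul_add, vecMul_smul, vecMul_sub, vecMul_vecMulVec, f1, f2]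
    have fx' : f ᵥ* M x⁻¹ = f := by
      conv_lhs => rw [← fx, vecMul_vecMul, xx, vecMul_one]
    have xw : M x *ᵥ w = w - (n * (ψ ⬝ᵥ w)) • M g *ᵥ v := by
      simp [e, add_mulVec, smul_mulVec, neg_mulVec, vecMulVec_mulVec, w1, smul_smul, sub_eq_add_neg,
        mul_comm]
    obtain ⟨m, m0, y, hy, e'⟩ := comm hD hx w f w1 (by rw [xw]; simp [w1, f2])
    refine ⟨M g *ᵥ v, f, u0, f0, f2, m * (n * (ψ ⬝ᵥ w)), by positivity, y, hy, ?_⟩
    rw [e', fx', xw, sub_vecMulVec, smul_vecMulVec, sub_sub_cancel, smul_smul]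

theorem all_tr (hD : Boomerang D) {g : Γ} (hg : g ∈ D) (g1 : g ≠ 1) (i j : Fin 3) (hij : i ≠ j)
    (q : ℚ) : SpecialLinearGroup.transvection hij q ∈ D := by
  obtain ⟨a, f, a0, f0, h, hS⟩ := first hD hg g1
  obtain ⟨b, b0, b1, b2⟩ := ex_perp f (Pi.single j 1)
  rw [dotProduct_comm] at b1 b2
  obtain ⟨c, c0, x, hx, e⟩ := move1 (b := Pi.single i 1) hD b2 (by simp [hij.symm]) b0 (by simp)
    (move2 hD b1 b2 f0 (by simp) (move1 hD h b1 a0 b0 hS))
  have hc : SpecialLinearGroup.transvection hij c ∈ D := by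
    convert hx
    refine M_inj ?_
    rw [e, M_tr, ← single_eq_single_vecMulVec_single]
    simp
  have mul : ∀ (r : ℚ) (z : ℤ), SpecialLinearGroup.transvection hij r ∈ D →
      SpecialLinearGroup.transvection hij (z * r) ∈ D := fun r z hr => by
    induction z with
    | zero => simp [SpecialLinearGroup.transvection_coeff_zero, D.one_mem]
    | succ z ih =>
      push_cast at ih ⊢
      rw [add_mul, one_mul, SpecialLinearGroup.transvection_add]; exact D.mul_mem ih hr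
    | pred z ih =>
      push_cast at ih ⊢
      rw [sub_mul, one_mul, sub_eq_add_neg, SpecialLinearGroup.transvection_add,
        ← SpecialLinearGroup.transvection_inv]
      exact D.mul_mem ih (D.inv_mem hr)
  set d : ℚ := ((q / c).den : ℚ) with hd
  have d0 : d ≠ 0 := by rw [hd]; exact_mod_cast (q / c).den_nz
  let γ : Γ := SpecialLinearGroup.diag2n hij d⁻¹ (inv_ne_zero d0)
  have cj : ∀ (n : ℕ) (r : ℚ), γ ^ n * SpecialLinearGroup.transvection hij r * (γ ^ n)⁻¹ =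
      SpecialLinearGroup.transvection hij (r * (d⁻¹) ^ (2 * n)) := fun n => by
    induction n with
    | zero => simp
    | succ n ih =>
      intro r
      have one : γ * SpecialLinearGroup.transvection hij r =
          SpecialLinearGroup.transvection hij (r * d⁻¹ ^ 2) * γ := by
        refine M_inj (Matrix.ext fun k l => ?_)
        simp only [M_mul, γ, M_dg,
          M_tr, diagonal_mul, mul_diagonal, Matrix.add_apply, one_apply,
          single_apply]
        by_cases h1 : k = l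
        · subst h1
          have : ¬ (i = k ∧ j = k) := fun h => hij (h.1.trans h.2.symm)
          simp [this]
        · by_cases h2 : i = k ∧ j = l
          · obtain ⟨rfl, rfl⟩ := h2
            simp [h1, hij.symm]; field_simp
          · simp [h1, h2]
      rw [pow_succ, mul_assoc (γ ^ n), one, _root_.mul_inv_rev, ← mul_assoc, ← mul_assoc,
        mul_inv_cancel_right, ih]
      congr 1; ring
  obtain ⟨n, n1, hn⟩ := hD.conj γ hc
  rw [cj] at hn
  obtain ⟨k, hk⟩ : ∃ k, 2 * n = k + 1 := ⟨2 * n - 1, by omega⟩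
  convert mul _ ((q / c).num * (q / c).den ^ k) hn using 2
  have := Rat.num_div_den (q / c)
  rw [hk]; push_cast
  rw [← hd] at this ⊢
  rw [div_eq_iff d0] at this
  rw [this, inv_pow]; field_simp; ring

theorem result : Infinite (SpecialLinearGroup (Fin 3) ℚ) ∧
    Countable (SpecialLinearGroup (Fin 3) ℚ) ∧
    ∀ D : Subgroup (SpecialLinearGroup (Fin 3) ℚ), Boomerang D → D = ⊥ ∨ D = ⊤ := by
  refine ⟨Infinite.of_injective (fun q : ℚ => (SpecialLinearGroup.transvection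
      (zero_ne_one : (0 : Fin 3) ≠ 1) q : Γ)) fun a b h => ?_,
    inferInstanceAs (Countable {A : Fin 3 → Fin 3 → ℚ // det (of A) = 1}), fun D hD => ?_⟩
  · simpa [M_tr] using congr(M $h 0 1)
  · by_cases h : D = ⊥
    · exact Or.inl h
    obtain ⟨⟨g, hg⟩, g1⟩ := Subgroup.ne_bot_iff_exists_ne_one.1 h
    have t := all_tr hD hg fun e => g1 (Subtype.ext e)
    refine Or.inr (eq_top_iff.2 fun N _ => SpecialLinearGroup.diagonal_transvection_induction'
      (· ∈ D) N (fun i j hij c hc => ?_) t fun A B => D.mul_mem)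
    have : SpecialLinearGroup.diag2n hij c hc = SpecialLinearGroup.transvection hij c *
        SpecialLinearGroup.transvection hij.symm (-c⁻¹) * SpecialLinearGroup.transvection hij c *
        SpecialLinearGroup.transvection hij (-1) * SpecialLinearGroup.transvection hij.symm 1 *
        SpecialLinearGroup.transvection hij (-1) := by
      refine M_inj ?_
      rw [M_mul, M_mul, M_mul, M_mul, M_mul, M_tr, M_tr, M_tr, M_tr, M_dg]
      refine Matrix.ext fun k l => ?_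
      fin_cases i <;> fin_cases j <;> first | exact absurd rfl hij | skip
      all_goals fin_cases k <;> fin_cases l <;>
        simp [mul_add, add_mul,
          mul_inv_cancel₀ hc, inv_mul_cancel₀ hc]
    rw [this]
    exact D.mul_mem (D.mul_mem (D.mul_mem (D.mul_mem (D.mul_mem (t _ _ _ _) (t _ _ _ _))
      (t _ _ _ _)) (t _ _ _ _)) (t _ _ _ _)) (t _ _ _ _)

end Pool.Agent.Results.MP_80afb3_al.SL3Q
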